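import Pool.Agent.L5helper67.NC.FtPerm2

/-!
`F_t` is a permanent up to a constant, from any gadget.
-/

namespace L5helper34.Cub

open Finset MvPolynomial L5helper59.DC L5lead.NC L5helper67.DC L5helper96.NC L5helper67.NC

theorem sum_pow_ne_zero (r L : ℕ) (t : ℝ) (ht : 0 < t) :
    ∑ z ∈ range (2 ^ L), ((t : ℂ) ^ r) ^ (z ^ 2) ≠ 0 := by
  have h1 : 0 < ∑ z ∈ range (2 ^ L), (t ^ r) ^ (z ^ 2) := by
    apply sum_pos
    · intro z _
      positivity
    · rw [nonempty_range_iff]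
      positivity
  have h2 : (∑ z ∈ range (2 ^ L), ((t : ℂ) ^ r) ^ (z ^ 2)) =
      ((∑ z ∈ range (2 ^ L), (t ^ r) ^ (z ^ 2) : ℝ) : ℂ) := by
    push_cast
    rfl
  rw [h2]
  exact_mod_cast h1.ne'

/-- C3 from the value of a gadget -/
theorem Fperm_of (r L m : ℕ) (t : ℝ) (ht : 0 < t)
    (H : ∃ (M : Matrix (Fin m) (Fin m) (MvPolynomial (Option (Fin (2 ^ L) × Fin (2 ^ L))) ℂ))
      (K K' : ℂ), K ≠ 0 ∧ K' ≠ 0 ∧ (∀ x y, (M x y).totalDegree ≤ 1) ∧
      M.permanent = C K' * X none + C K * ∑ z ∈ range (2 ^ L),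
        sig r (fun (i : Fin (2 ^ L)) (j : Fin (2 * 2 ^ L)) =>
          C ((t : ℂ) ^ (z ^ 2) * ((t : ℂ) ^ (2 * (i : ℕ)) * (t : ℂ)⁻¹ ^ (2 * (j : ℕ))) ^ z) *
            (C ((t : ℂ) ^ e2 0 i j) * Y2 (2 ^ L) i j))) :
    ∃ (M : Matrix (Fin m) (Fin m) (MvPolynomial (Option (Fin (2 ^ L) × Fin (2 ^ L))) ℂ))
      (K : ℂ), K ≠ 0 ∧ (∀ x y, (M x y).totalDegree ≤ 1) ∧
      M.permanent = C K * F2t (2 ^ L) r (t : ℂ) := by
  classical
  have ht' : (t : ℂ) ≠ 0 := by exact_mod_cast ht.ne'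
  obtain ⟨M, K, K', hK, hK', hM, hp⟩ := H
  let θ : MvPolynomial (Option (Fin (2 ^ L) × Fin (2 ^ L))) ℂ →+*
    MvPolynomial (Option (Fin (2 ^ L) × Fin (2 ^ L))) ℂ := (aeval (scl (K / K'))).toRingHom
  refine ⟨M.map θ, K, hK, fun x y => ?_, ?_⟩
  · rw [Matrix.map_apply]
    exact (totalDegree_aeval_le _ (fun o => scl_degree _ o) (M x y)).trans (hM x y)
  · rw [← permanent_map', hp, map_add, map_mul, map_mul, map_sum]
    have e1 : θ (X none : MvPolynomial (Option (Fin (2 ^ L) × Fin (2 ^ L))) ℂ) =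
        C (K / K') * X none := by
      change aeval (scl (K / K')) (X none) = _
      rw [aeval_X]
      rfl
    have eC : ∀ z : ℂ,
        θ (C z : MvPolynomial (Option (Fin (2 ^ L) × Fin (2 ^ L))) ℂ) = C z := by
      intro z
      change aeval (scl (K / K')) (C z) = _
      rw [aeval_C]
      rfl
    rw [e1, eC, eC, ← mul_assoc, ← C_mul, mul_div_cancel₀ _ hK']
    unfold F2t
    rw [mul_add]
    congr 2
    refine sum_congr rfl fun z _ => ?_
    rw [map_sig]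
    congr 1
    funext i j
    rw [map_mul θ, map_mul θ (C ((t : ℂ) ^ e2 0 i j)), eC, eC]
    have e2' : θ (Y2 (2 ^ L) i j) = Y2 (2 ^ L) i j := scl_Y2 _ _ i j
    rw [e2', ← mul_assoc, ← C_mul, exponents2 _ ht']

end L5helper34.Cub
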